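import Pool.Agent.Helper86.Vass.Shadow

/-!
# Knot shadows with many interlaced pairs of crossings

The definitions (braid words, closed braids up to Markov equivalence, rational Vassiliev
invariants, resolutions of a singular closed braid) are in `Pool.Agent.Helper86.Vass.Defs`, and
smoothings and interlaced double points in `Pool.Agent.Helper86.Vass.Smooth`.
-/

namespace Pool.Agent.Results.MP_5f6b43_gt.AlmostAllShadows

open VassBraid Finset Function

/-- Let `s` be a closed braid with `N` free crossings (double points) and any number of fixed
crossings, on any number of strands, whose closure has one component.  Suppose that there are `r`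
pairwise disjoint pairs of interlaced free crossings.  Then for every `K` at most
`5/2 * r ^ (-1/8) * 2 ^ N` of the `2 ^ N` choices of the free crossings give a knot with the same
rational Vassiliev invariants of degree at most `2` as `K`. -/
theorem result (n : ℕ) (s : SWord n) (_hs : OneComp s) (r : ℕ) (hr : 0 < r)
    (p q : Fin r → Fin (doublePoints s)) (hinj : Injective (Sum.elim p q))
    (hpq : ∀ t, Interlaced s (p t) (q t)) (K : CBraid) :
    (({ε : Fin (doublePoints s) → Bool |
        SameUpTo 2 ⟨n, fill s (List.ofFn ε)⟩ K}.ncard : ℕ) : ℝ)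
      ≤ 5 / 2 / (r : ℝ) ^ (1 / 8 : ℝ) * 2 ^ (doublePoints s) := by
  classical
  refine le_trans ?_ (shadow_level s hr p q hinj hpq (f2 K))
  rw [← Set.ncard_coe_finset]
  have hsub : {ε : Fin (doublePoints s) → Bool | SameUpTo 2 ⟨n, fill s (List.ofFn ε)⟩ K}
      ⊆ ((univ.filter fun ε : Fin (doublePoints s) → Bool =>
        f2 ⟨n, fill s (List.ofFn ε)⟩ = f2 K : Finset _) : Set _) := by
    intro ε hε
    rw [mem_coe, mem_filter]
    exact ⟨mem_univ _, hε f2 f2_vassiliev⟩
  exact_mod_cast Set.ncard_le_ncard hsub (Finset.finite_toSet _)

end Pool.Agent.Results.MP_5f6b43_gt.AlmostAllShadows
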