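import Pool.Agent.Helper86.Vass.Shadow

/-!
# Knot shadows with a large set of pairwise interlaced crossings

The definitions (braid words, closed braids up to Markov equivalence, rational Vassiliev
invariants, resolutions of a singular closed braid) are in `Pool.Agent.Helper86.Vass.Defs`, and
smoothings and interlaced double points in `Pool.Agent.Helper86.Vass.Smooth`.
-/

namespace Pool.Agent.Results.MP_5f6b43_gt.PairwiseInterlaced

open VassBraid Finset Function

/-- Let `s` be a closed braid with `N` free crossings (double points) and any number of fixed
crossings, on any number of strands, whose closure has one component.  Suppose that `J` is a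
non-empty set of pairwise interlaced free crossings.  Then for every `K` at most
`√(8 / #J) * 2 ^ N` of the `2 ^ N` choices of the free crossings give a knot with the same
rational Vassiliev invariants of degree at most `2` as `K`. -/
theorem result (n : ℕ) (s : SWord n) (_hs : OneComp s) (J : Finset (Fin (doublePoints s)))
    (hJ : J.Nonempty) (hint : ∀ j ∈ J, ∀ k ∈ J, j ≠ k → Interlaced s j k) (K : CBraid) :
    (({ε : Fin (doublePoints s) → Bool |
        SameUpTo 2 ⟨n, fill s (List.ofFn ε)⟩ K}.ncard : ℕ) : ℝ)
      ≤ √(8 / (J.card : ℝ)) * 2 ^ (doublePoints s) := by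
  classical
  have hlev := quad_level_on (G := fun ε : Fin (doublePoints s) → Bool => gf s (ext ε)) J hJ (by
    intro x i hi j hj hij
    have := sd_gf s x i j hij
    rw [if_pos (hint i hi j hj hij), mul_one] at this
    exact this) (f2 K)
  rw [Fintype.card_fin] at hlev
  refine le_trans ?_ hlev
  rw [← Set.ncard_coe_finset]
  have hsub : {ε : Fin (doublePoints s) → Bool | SameUpTo 2 ⟨n, fill s (List.ofFn ε)⟩ K}
      ⊆ ((univ.filter fun ε : Fin (doublePoints s) → Bool =>
        gf s (ext ε) = f2 K : Finset _) : Set _) := by
    intro ε hε
    rw [mem_coe, mem_filter]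
    refine ⟨mem_univ _, ?_⟩
    rw [← gf_ext]
    exact hε f2 f2_vassiliev
  exact_mod_cast Set.ncard_le_ncard hsub (Finset.finite_toSet _)

end Pool.Agent.Results.MP_5f6b43_gt.PairwiseInterlaced
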