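import Pool.Agent.CliqueCount.NatMain

set_option autoImplicit false

open Finset Filter
open Pool.Agent.CliqueCount (clq mem_clq vals gapW upper_nat interval_nat gapW_le)

namespace Pool.Agent.Helper86.Variants.SecondOrderCliques

/-- `f(G)`: the number of complete subgraphs of `G`, that is, of nonempty cliques -/
noncomputable def f {n : ℕ} (G : SimpleGraph (Fin n)) : ℕ :=
  {s : Finset (Fin n) | s.Nonempty ∧ G.IsClique (s : Set (Fin n))}.ncard

/-- the set of the numbers of complete subgraphs of the graphs with `n` vertices -/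
def S (n : ℕ) : Set ℕ := {N | ∃ G : SimpleGraph (Fin n), f G = N}

/-- the number of different numbers of complete subgraphs of graphs with `n` vertices -/
noncomputable def F (n : ℕ) : ℕ := (S n).ncard

/-- the second-order term `(log n)^2 / log log n` -/
noncomputable def Λ (n : ℕ) : ℝ := Real.log n ^ 2 / Real.log (Real.log n)

lemma f_add_one {n : ℕ} (G : SimpleGraph (Fin n)) : f G + 1 = (clq G).card := by
  classical
  have h1 : {s : Finset (Fin n) | s.Nonempty ∧ G.IsClique (s : Set (Fin n))} =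
      (((clq G).erase ∅ : Finset (Finset (Fin n))) : Set (Finset (Fin n))) := by
    ext s
    rw [Finset.coe_erase]
    simp only [Set.mem_ofPred_eq, Set.mem_sdiff, mem_coe, mem_clq, Set.mem_singleton_iff,
      Finset.nonempty_iff_ne_empty]
    tauto
  have h2 : (∅ : Finset (Fin n)) ∈ clq G := by
    rw [mem_clq]; simp
  unfold f
  rw [h1, Set.ncard_coe_finset, Finset.card_erase_of_mem h2]
  have : 0 < (clq G).card := Finset.card_pos.2 ⟨_, h2⟩
  omega

lemma vals_finite (n : ℕ) : (vals n).Finite := by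
  have : vals n = Set.range fun G : SimpleGraph (Fin n) => (clq G).card := by
    ext N; simp [vals]
  rw [this]
  exact Set.finite_range _

lemma S_finite (n : ℕ) : (S n).Finite := by
  have : S n = Set.range fun G : SimpleGraph (Fin n) => f G := by
    ext N; simp [S]
  rw [this]
  exact Set.finite_range _

lemma F_le (n : ℕ) : F n ≤ (vals n).ncard := by
  unfold F
  refine Set.ncard_le_ncard_of_injOn (fun N => N + 1) ?_ ?_ (vals_finite n)
  · rintro N ⟨G, hG⟩
    exact ⟨G, by rw [← f_add_one, hG]⟩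
  · intro a _ b _ h
    simpa using h

lemma mem_S {n N : ℕ} (h : ∃ G : SimpleGraph (Fin n), (clq G).card = N + 1) : N ∈ S n := by
  obtain ⟨G, hG⟩ := h
  refine ⟨G, ?_⟩
  have := f_add_one G
  omega

/-- comparison of the dyadic and the real logarithms -/
lemma real_facts {n L A : ℕ} (hL1 : 2 ^ L ≤ n) (hL2 : n < 2 ^ (L + 1)) (hA1 : 2 ^ A ≤ L)
    (hA2 : L < 2 ^ (A + 1)) (h1 : 40000 ≤ Real.log n) (h2 : 4 ≤ Real.log (Real.log n)) :
    Real.log n ≤ L ∧ (L : ℝ) ≤ 2 * Real.log n ∧ (A : ℝ) ≤ 3 * Real.log (Real.log n) ∧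
      Real.log (Real.log n) ≤ 2 * A := by
  have hlog2 := Real.log_two_gt_d9
  have hlog2' := Real.log_two_lt_d9
  set ℓ := Real.log n with hℓ
  have hn0 : 0 < n := lt_of_lt_of_le (by positivity) hL1
  have hL0 : 0 < L := lt_of_lt_of_le (by positivity) hA1
  have e1 : (L : ℝ) * Real.log 2 ≤ ℓ := by
    rw [hℓ, ← Real.log_pow]
    apply Real.log_le_log (by positivity)
    exact_mod_cast hL1
  have e2 : ℓ ≤ ((L : ℝ) + 1) * Real.log 2 := by
    have : ((L : ℝ) + 1) * Real.log 2 = ((L + 1 : ℕ) : ℝ) * Real.log 2 := by push_cast; ring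
    rw [this, hℓ, ← Real.log_pow]
    apply Real.log_le_log (by exact_mod_cast hn0)
    exact_mod_cast hL2.le
  have e3 : (A : ℝ) * Real.log 2 ≤ Real.log L := by
    rw [← Real.log_pow]
    apply Real.log_le_log (by positivity)
    exact_mod_cast hA1
  have e4 : Real.log L ≤ ((A : ℝ) + 1) * Real.log 2 := by
    have : ((A : ℝ) + 1) * Real.log 2 = ((A + 1 : ℕ) : ℝ) * Real.log 2 := by push_cast; ring
    rw [this, ← Real.log_pow]
    apply Real.log_le_log (by exact_mod_cast hL0)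
    exact_mod_cast hA2.le
  have hLlo : ℓ ≤ L := by nlinarith
  have hLhi : (L : ℝ) ≤ 2 * ℓ := by nlinarith
  have hℓpos : 0 < ℓ := by linarith
  have e5 : Real.log ℓ ≤ Real.log L := Real.log_le_log hℓpos hLlo
  have e6 : Real.log L ≤ Real.log 2 + Real.log ℓ := by
    rw [← Real.log_mul (by norm_num) hℓpos.ne']
    exact Real.log_le_log (by exact_mod_cast hL0) hLhi
  have hA0 : (0 : ℝ) ≤ A := Nat.cast_nonneg A
  refine ⟨hLlo, hLhi, ?_, ?_⟩
  · nlinarith
  · nlinarith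

theorem main_bound {n L A : ℕ} (hL1 : 2 ^ L ≤ n) (hL2 : n < 2 ^ (L + 1)) (hA1 : 2 ^ A ≤ L)
    (hA2 : L < 2 ^ (A + 1)) (hA8 : 8 ≤ A) (h1 : 40000 ≤ Real.log n)
    (h2 : 4 ≤ Real.log (Real.log n)) :
    (∀ N : ℕ, n ≤ N → (N : ℝ) ≤ 2 ^ ((n : ℝ) - 2000 * Λ n) → N ∈ S n) ∧
      (2 : ℝ) ^ ((n : ℝ) - 2000 * Λ n) ≤ F n ∧
      (F n : ℝ) ≤ 2 ^ ((n : ℝ) - (1 / 10000) * Λ n) := by
  obtain ⟨r1, r2, r3, r4⟩ := real_facts hL1 hL2 hA1 hA2 h1 h2
  have hΛ : Λ n = Real.log n ^ 2 / Real.log (Real.log n) := rfl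
  set ℓ := Real.log n with hℓ
  set m := Real.log ℓ with hm
  have hℓpos : 0 < ℓ := by linarith
  have hmpos : 0 < m := by linarith
  have hmℓ : m ≤ ℓ := (Real.log_le_sub_one_of_pos hℓpos).trans (by linarith)
  have hΛbig : 40000 ≤ Λ n := by
    rw [hΛ, le_div_iff₀ hmpos]
    nlinarith
  have hAR : (8 : ℝ) ≤ A := by exact_mod_cast hA8
  have hApos : (0 : ℝ) < A := by linarith
  -- `L^2/A` against `Λ`
  have hq1 : (L : ℝ) ^ 2 / A ≤ 8 * Λ n := by
    rw [div_le_iff₀ hApos, hΛ]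
    have : 8 * (ℓ ^ 2 / m) * A = (4 * ℓ ^ 2) * (2 * A / m) := by field_simp; ring
    rw [this]
    have h3 : 1 ≤ 2 * (A : ℝ) / m := by rw [le_div_iff₀ hmpos]; linarith
    have h4 : (L : ℝ) ^ 2 ≤ 4 * ℓ ^ 2 := by nlinarith
    nlinarith [sq_nonneg ℓ]
  have hq2 : Λ n ≤ 3 * ((L : ℝ) ^ 2 / A) := by
    rw [hΛ, div_le_iff₀ hmpos]
    have : 3 * ((L : ℝ) ^ 2 / A) * m = (L : ℝ) ^ 2 * (3 * m / A) := by field_simp
    rw [this]
    have h3 : 1 ≤ 3 * m / (A : ℝ) := by rw [le_div_iff₀ hApos]; linarith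
    have h4 : ℓ ^ 2 ≤ (L : ℝ) ^ 2 := by nlinarith
    nlinarith [sq_nonneg (L : ℝ)]
  have hL40 : 40 ≤ L := by
    have : (40000 : ℝ) ≤ L := h1.trans r1
    have : 40000 ≤ L := by exact_mod_cast this
    omega
  have hWn := gapW_le (A := A) hL1 hL40
  have hWR : (gapW L A : ℝ) ≤ 1120 * Λ n + 75 := by
    have h3 : ((28 * L ^ 2 / A : ℕ) : ℝ) ≤ 28 * ((L : ℝ) ^ 2 / A) := by
      have := Nat.cast_div_le (α := ℝ) (m := 28 * L ^ 2) (n := A)
      refine this.trans (le_of_eq ?_)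
      push_cast
      ring
    have h4 : (gapW L A : ℝ) = 5 * ((28 * L ^ 2 / A : ℕ) : ℝ) + 75 := by
      unfold gapW; push_cast; ring
    rw [h4]
    nlinarith
  -- the interval
  have hint : ∀ N : ℕ, n ≤ N → N + 1 ≤ 2 ^ (n - gapW L A) → N ∈ S n := fun N hN1 hN2 =>
    mem_S (interval_nat hL1 hL2 (by omega) hA1 hL40 hN1 hN2)
  have hpow : (2 : ℝ) ^ ((n : ℝ) - 2000 * Λ n) ≤ 2 ^ (n - gapW L A - 1) := by
    rw [← Real.rpow_natCast 2 (n - gapW L A - 1)]
    apply Real.rpow_le_rpow_of_exponent_le (by norm_num)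
    have h3 : ((n - gapW L A - 1 : ℕ) : ℝ) = (n : ℝ) - gapW L A - 1 := by
      rw [Nat.cast_sub (by omega), Nat.cast_sub (by omega)]
      simp
    rw [h3]
    linarith
  have hhalf : 2 ^ (n - gapW L A) = 2 * 2 ^ (n - gapW L A - 1) := by
    rw [← pow_succ']
    congr 1
    omega
  refine ⟨?_, ?_, ?_⟩
  · intro N hN1 hN2
    apply hint N hN1
    have h3 : (N : ℝ) ≤ ((2 ^ (n - gapW L A - 1) : ℕ) : ℝ) := by
      push_cast
      exact hN2.trans hpow
    have h4 : N ≤ 2 ^ (n - gapW L A - 1) := by exact_mod_cast h3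
    have h5 : 1 ≤ 2 ^ (n - gapW L A - 1) := Nat.one_le_two_pow
    omega
  · refine hpow.trans ?_
    have h3 : Finset.Icc n (2 ^ (n - gapW L A) - 1) ⊆ (S_finite n).toFinset := by
      intro N hN
      rw [mem_Icc] at hN
      rw [Set.Finite.mem_toFinset]
      apply hint N hN.1
      have : 1 ≤ 2 ^ (n - gapW L A) := Nat.one_le_two_pow
      omega
    have h4 := Finset.card_le_card h3
    rw [Nat.card_Icc, ← Set.ncard_eq_toFinset_card _ (S_finite n)] at h4
    have h5 : n ≤ 2 ^ (n - gapW L A - 1) := by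
      refine hL2.le.trans (Nat.pow_le_pow_right (by norm_num) ?_)
      omega
    have h6 : 2 ^ (n - gapW L A - 1) ≤ F n := by
      unfold F
      omega
    exact_mod_cast h6
  · have h3 := (F_le n).trans (upper_nat hL1 hL2 hA1 hA2 hA8)
    have h4 : (F n : ℝ) ≤ 2 ^ (n - L ^ 2 / (768 * A) + 2) := by exact_mod_cast h3
    refine h4.trans ?_
    rw [← Real.rpow_natCast 2 (n - L ^ 2 / (768 * A) + 2)]
    apply Real.rpow_le_rpow_of_exponent_le (by norm_num)
    have h5 : (L : ℝ) ^ 2 / (768 * A) - 1 ≤ ((L ^ 2 / (768 * A) : ℕ) : ℝ) := by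
      have h6 : (L ^ 2 : ℕ) < 768 * A * (L ^ 2 / (768 * A) + 1) :=
        Nat.lt_mul_div_succ _ (by omega)
      have h7 : ((L ^ 2 : ℕ) : ℝ) < ((768 * A * (L ^ 2 / (768 * A) + 1) : ℕ) : ℝ) := by
        exact_mod_cast h6
      push_cast at h7
      rw [sub_le_iff_le_add, div_le_iff₀ (by positivity)]
      linarith
    have h6 : (L : ℝ) ^ 2 / (768 * A) = ((L : ℝ) ^ 2 / A) / 768 := by
      field_simp
    have h7 : ((n - L ^ 2 / (768 * A) + 2 : ℕ) : ℝ) ≤
        (n : ℝ) - ((L ^ 2 / (768 * A) : ℕ) : ℝ) + 2 := by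
      have h8 : L ^ 2 / (768 * A) ≤ n := by
        have h9 : L ^ 2 / (768 * A) ≤ L ^ 2 := Nat.div_le_self _ _
        have h10 := Pool.Agent.CliqueCount.big_pow hL40
        nlinarith
      push_cast [Nat.cast_sub h8]
      exact le_rfl
    rw [h6] at h5
    linarith

/-- There are constants `c, C > 0` such that for all large `n` every integer `N` with
`n ≤ N ≤ 2^(n - C (log n)^2 / log log n)` is the number of complete subgraphs of a graph with `n`
vertices, and `2^(n - C (log n)^2 / log log n) ≤ F n ≤ 2^(n - c (log n)^2 / log log n)`. -/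
theorem result : ∃ c C : ℝ, 0 < c ∧ 0 < C ∧ ∀ᶠ n : ℕ in atTop,
    (∀ N : ℕ, n ≤ N →
      (N : ℝ) ≤ 2 ^ ((n : ℝ) - C * (Real.log n ^ 2 / Real.log (Real.log n))) → N ∈ S n) ∧
    (2 : ℝ) ^ ((n : ℝ) - C * (Real.log n ^ 2 / Real.log (Real.log n))) ≤ F n ∧
    (F n : ℝ) ≤ 2 ^ ((n : ℝ) - c * (Real.log n ^ 2 / Real.log (Real.log n))) := by
  refine ⟨1 / 10000, 2000, by norm_num, by norm_num, ?_⟩
  have t1 : Tendsto (fun n : ℕ => Real.log n) atTop atTop :=
    Real.tendsto_log_atTop.comp tendsto_natCast_atTop_atTop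
  have t2 : Tendsto (fun n : ℕ => Real.log (Real.log n)) atTop atTop :=
    Real.tendsto_log_atTop.comp t1
  filter_upwards [t1.eventually_ge_atTop 40000, t2.eventually_ge_atTop 20,
    eventually_ge_atTop (2 ^ (2 ^ 8))] with n h1 h2 h3
  have hn0 : n ≠ 0 := by
    rintro rfl
    simp at h1
    linarith
  set L := Nat.log 2 n with hL
  have hL8 : 2 ^ 8 ≤ L := by
    rw [hL]
    exact Nat.le_log_of_pow_le (by norm_num) h3
  have hL0 : L ≠ 0 := by
    have : 0 < 2 ^ 8 := by norm_num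
    omega
  have hA8 : 8 ≤ Nat.log 2 L := Nat.le_log_of_pow_le (by norm_num) hL8
  exact main_bound (Nat.pow_log_le_self 2 hn0) (Nat.lt_pow_succ_log_self (by norm_num) n)
    (Nat.pow_log_le_self 2 hL0) (Nat.lt_pow_succ_log_self (by norm_num) L) hA8 h1 (by linarith)

end Pool.Agent.Helper86.Variants.SecondOrderCliques
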